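import Pool.Agent.N431.PK.Stm

set_option autoImplicit false

/-!
# PK/FR: two independent elements in a nonabelian residually-`p` group
-/

namespace Pool.Agent.N362.PK

open Pool.Agent.N431.PK

variable {p : ℕ} [Fact p.Prime]

/-- maximal subgroups are kernels of characters -/
theorem exists_char {Q : Type} [Group Q] [Finite Q] (hQ : IsPGroup p Q) (M : Subgroup Q)
    (hM : IsCoatom M) : ∃ χ : Q →* Multiplicative (ZMod p), ∀ x, χ x = 1 ↔ x ∈ M := by
  have hnil := hQ.isNilpotent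
  have hnor : M.Normal :=
    Subgroup.NormalizerCondition.normal_of_coatom M Group.normalizerCondition_of_isNilpotent hM
  have hcard : Nat.card (Q ⧸ M) = p := by
    have h1 : IsPGroup p (Q ⧸ M) := hQ.to_quotient M
    obtain ⟨g0, hg0⟩ : ∃ g : Q, g ∉ M := by
      by_contra hcon
      push Not at hcon
      exact hM.1 ((Subgroup.eq_top_iff' M).2 hcon)
    have hnt : Nontrivial (Q ⧸ M) := by
      refine ⟨⟨(g0 : Q ⧸ M), 1, fun h => hg0 ?_⟩⟩
      exact (QuotientGroup.eq_one_iff g0).1 h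
    obtain ⟨n, hn⟩ := IsPGroup.iff_card.1 h1
    have hn0 : n ≠ 0 := by
      rintro rfl
      rw [pow_zero] at hn
      have := Finite.one_lt_card (α := Q ⧸ M)
      omega
    have hdvd : p ∣ Nat.card (Q ⧸ M) := by
      rw [hn]
      exact dvd_pow_self p hn0
    obtain ⟨x, hx⟩ := exists_prime_orderOf_dvd_card' p hdvd
    have hx1 : x ≠ 1 := by
      rintro rfl
      rw [orderOf_one] at hx
      exact (Fact.out : p.Prime).ne_one hx.symm
    have htop : Subgroup.zpowers x = ⊤ := by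
      have h2 : M < (Subgroup.zpowers x).comap (QuotientGroup.mk' M) := by
        refine lt_of_le_of_ne ?_ ?_
        · intro m hm
          rw [Subgroup.mem_comap]
          have : QuotientGroup.mk' M m = 1 := (QuotientGroup.eq_one_iff m).2 hm
          rw [this]
          exact one_mem _
        · intro heq
          obtain ⟨y, rfl⟩ := QuotientGroup.mk'_surjective M x
          apply hx1
          refine (QuotientGroup.eq_one_iff y).2 ?_
          rw [heq, Subgroup.mem_comap]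
          exact Subgroup.mem_zpowers _
      have h3 := hM.2 _ h2
      rw [Subgroup.eq_top_iff']
      intro y
      obtain ⟨z, rfl⟩ := QuotientGroup.mk'_surjective M y
      have h4 : z ∈ (Subgroup.zpowers x).comap (QuotientGroup.mk' M) := by
        rw [h3]
        exact Subgroup.mem_top z
      exact h4
    rw [← Subgroup.card_top (G := Q ⧸ M), ← htop, Nat.card_zpowers, hx]
  have hz : Nat.card (Multiplicative (ZMod p)) = p := by
    rw [Nat.card_congr Multiplicative.toAdd, Nat.card_zmod]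
  refine ⟨(mulEquivOfPrimeCardEq hcard hz).toMonoidHom.comp (QuotientGroup.mk' M), fun x => ?_⟩
  change mulEquivOfPrimeCardEq hcard hz (QuotientGroup.mk' M x) = 1 ↔ _
  rw [MulEquiv.map_eq_one_iff]
  exact QuotientGroup.eq_one_iff x

theorem pow_one_of_ne {Q : Type} [Group Q] (χ : Q →* Multiplicative (ZMod p)) {v : Q}
    (h : χ v ≠ 1) : ∃ n : ℕ, χ (v ^ n) = Multiplicative.ofAdd 1 := by
  have h1 : Multiplicative.toAdd (χ v) ≠ 0 := fun h0 => h (by
    rw [← ofAdd_toAdd (χ v), h0, ofAdd_zero])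
  refine ⟨((Multiplicative.toAdd (χ v))⁻¹).val, ?_⟩
  rw [map_pow, ← ofAdd_toAdd (χ v ^ _), toAdd_pow, nsmul_eq_mul, ZMod.natCast_zmod_val,
    inv_mul_cancel₀ h1]

/-- two independent characters -/
theorem exists_two {Q : Type} [Group Q] [Finite Q] (hQ : IsPGroup p Q) (hc : ¬ IsCyclic Q) :
    ∃ (χ₁ χ₂ : Q →* Multiplicative (ZMod p)) (u₁ u₂ : Q), χ₁ u₁ = Multiplicative.ofAdd 1 ∧
      χ₁ u₂ = 1 ∧ χ₂ u₁ = 1 ∧ χ₂ u₂ = Multiplicative.ofAdd 1 := by
  obtain ⟨M₁, h1⟩ : ∃ M : Subgroup Q, IsCoatom M := by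
    rcases eq_top_or_exists_le_coatom (⊥ : Subgroup Q) with h | ⟨M, hM, -⟩
    · exfalso
      apply hc
      refine ⟨⟨1, fun x => ?_⟩⟩
      have hx : x ∈ (⊥ : Subgroup Q) := by
        rw [h]
        exact Subgroup.mem_top x
      exact ⟨0, (zpow_zero _).trans (Subgroup.mem_bot.1 hx).symm⟩
    · exact ⟨M, hM⟩
  obtain ⟨g, hg⟩ : ∃ g : Q, g ∉ M₁ := by
    by_contra hcon
    push Not at hcon
    exact h1.1 ((Subgroup.eq_top_iff' M₁).2 hcon)
  obtain ⟨M₂, h2, hg2⟩ : ∃ M : Subgroup Q, IsCoatom M ∧ g ∈ M := by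
    rcases eq_top_or_exists_le_coatom (Subgroup.zpowers g) with h | ⟨M, hM, hM'⟩
    · exfalso
      apply hc
      refine ⟨⟨g, fun x => ?_⟩⟩
      have hx : x ∈ Subgroup.zpowers g := by
        rw [h]
        exact Subgroup.mem_top x
      exact Subgroup.mem_zpowers_iff.1 hx
    · exact ⟨M, hM, hM' (Subgroup.mem_zpowers g)⟩
  have hne : M₁ ≠ M₂ := fun h => hg (h ▸ hg2)
  obtain ⟨v, hv1, hv2⟩ : ∃ v : Q, v ∈ M₁ ∧ v ∉ M₂ := by
    by_contra hcon
    push Not at hcon
    exact h2.1 (h1.2 M₂ (lt_of_le_of_ne hcon hne))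
  obtain ⟨χ₁, hχ1⟩ := exists_char hQ M₁ h1
  obtain ⟨χ₂, hχ2⟩ := exists_char hQ M₂ h2
  obtain ⟨n₁, hn1⟩ := pow_one_of_ne χ₁ (v := g) (fun h => hg ((hχ1 g).1 h))
  obtain ⟨n₂, hn2⟩ := pow_one_of_ne χ₂ (v := v) (fun h => hv2 ((hχ2 v).1 h))
  refine ⟨χ₁, χ₂, g ^ n₁, v ^ n₂, hn1, ?_, ?_, hn2⟩
  · rw [map_pow, (hχ1 v).2 hv1, one_pow]
  · rw [map_pow, (hχ2 g).2 hg2, one_pow]

theorem ofAdd_pow_val (z : Multiplicative (ZMod p)) :
    (Multiplicative.ofAdd (1 : ZMod p)) ^ (Multiplicative.toAdd z).val = z := by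
  rw [← ofAdd_nsmul, nsmul_eq_mul, mul_one, ZMod.natCast_zmod_val, ofAdd_toAdd]

/-- **(FR)** two independent elements -/
theorem t_FR : S_FR := by
  intro p _ P _ hP H ⟨a, b, hab⟩
  have hx : (a : P) * b * ((b : P) * a)⁻¹ ≠ 1 := by
    intro h
    rw [mul_inv_eq_one] at h
    exact hab (Subtype.ext h)
  obtain ⟨Q, _, _, q, hQ, hq⟩ := hP _ hx
  have hR : IsPGroup p (H.map q) := hQ.to_subgroup _
  have hnc : ¬ IsCyclic (H.map q) := by
    intro hcyc
    apply hq
    have hcomm := hcyc.isMulCommutative.is_comm.comm (⟨q a, Subgroup.mem_map_of_mem q a.2⟩ : H.map q)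
      ⟨q b, Subgroup.mem_map_of_mem q b.2⟩
    have h1 : q a * q b = q b * q a := congrArg Subtype.val hcomm
    rw [map_mul, map_inv, map_mul, map_mul, h1, mul_inv_cancel]
  obtain ⟨χ₁, χ₂, u₁, u₂, e11, e12, e21, e22⟩ := exists_two hR hnc
  obtain ⟨h₁, hh1⟩ := q.subgroupMap_surjective H u₁
  obtain ⟨h₂, hh2⟩ := q.subgroupMap_surjective H u₂
  refine ⟨h₁, h₂, fun z₁ z₂ => ?_⟩
  refine ⟨(χ₁.comp (q.subgroupMap H)) ^ (Multiplicative.toAdd z₁).val *
    (χ₂.comp (q.subgroupMap H)) ^ (Multiplicative.toAdd z₂).val, ⟨Q, inferInstance, inferInstance, q, hQ, ?_⟩, ?_, ?_⟩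
  · intro h hh
    have h0 : q.subgroupMap H h = 1 := Subtype.ext hh
    simp only [MonoidHom.mul_apply, MonoidHom.pow_apply, MonoidHom.comp_apply, h0, map_one, one_pow,
      mul_one]
  · simp only [MonoidHom.mul_apply, MonoidHom.pow_apply, MonoidHom.comp_apply, hh1, e11, e21,
      one_pow, mul_one, ofAdd_pow_val]
  · simp only [MonoidHom.mul_apply, MonoidHom.pow_apply, MonoidHom.comp_apply, hh2, e12, e22,
      one_pow, one_mul, ofAdd_pow_val]

end Pool.Agent.N362.PK
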